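import Mathlib
import Pool.Agent.X159.WM.Main

/-!
The weak Mertens hypothesis for `g * μ` and for the Möbius function on the integers without prime
factors in `P`.
-/

set_option autoImplicit false

namespace Pool.Agent.Results.MP_323ce2_nt.DilationInvariance

open Pool.Agent.X159.WM

theorem result :
    (∀ g g' : ArithmeticFunction ℝ, g * g' = 1 → Wiener g → Wiener g' →
      (∀ x : ℝ, 1 ≤ x → msq (g * mu) x ≤ wnorm g ^ 2 * msq mu x ∧
        msq mu x ≤ wnorm g' ^ 2 * msq (g * mu) x) ∧
      (LogBound mu ↔ LogBound (g * mu)) ∧ (LogBound mu ↔ LogBoundOften (g * mu))) ∧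
    (∀ P : Set ℕ, (∀ p ∈ P, p.Prime) →
      (Summable fun p : P => ((p : ℕ) : ℝ) ^ (-(1 / 2 : ℝ))) →
      (LogBound mu ↔ LogBound (muP P)) ∧ (LogBound mu ↔ LogBoundOften (muP P))) :=
  wm_main

end Pool.Agent.Results.MP_323ce2_nt.DilationInvariance
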