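import Pool.Agent.X113.GG8

/-!
# The weak Mertens hypothesis, bounds for `∑ 1/|ζ'(ρ)|²` and the increments of `M`

Let `M(u) = ∑_{n ≤ u} μ(n)` and `D(δ, X) = (1 / log X) ∫_1^X ((M((1+δ)u) - M(u)) / u)² du`.

* For every fixed `δ > 0` (for instance `δ = 1`: the increments `M(2u) - M(u)`) the weak Mertens hypothesis
  `∫_1^x (M(u)/u)² du ≤ C log x` holds if and only if `D(δ, X)` is bounded along some sequence `X → ∞`.
* For every `0 < η < 2` the following are equivalent: the Riemann Hypothesis holds, all zeros are simple and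
  `J_{-1}(T) = ∑_{0 < γ ≤ T} 1/|ζ'(ρ)|² ≪ T^{2-η}`; there is `C` such that `limsup_X D(δ, X) ≤ C δ^η` for all
  `0 < δ ≤ 1`; there is `C` such that `liminf_X D(δ, X) ≤ C δ^η` for all `0 < δ ≤ 1`.  For `η = 1` the first
  statement is Ng's sufficient condition `J_{-1}(T) ≪ T` for the weak Mertens hypothesis.
-/

set_option autoImplicit false

open Filter Topology MeasureTheory

namespace Pool.Agent.Results.MP_323ce2_nt.NegativeMomentCriterion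

/-- the Mertens function -/
noncomputable def M (u : ℝ) : ℝ := ∑ n ∈ Finset.Icc 1 ⌊u⌋₊, ((ArithmeticFunction.moebius n : ℤ) : ℝ)

/-- the weak Mertens hypothesis -/
def WeakMertens : Prop := ∃ C : ℝ, ∀ x : ℝ, 2 ≤ x → ∫ u in (1:ℝ)..x, (M u / u) ^ 2 ≤ C * Real.log x

/-- the logarithmic mean square of the increments `M((1+δ)u) - M(u)` -/
noncomputable def D (δ X : ℝ) : ℝ :=
  (∫ u in (1:ℝ)..X, (M ((1 + δ) * u) - M u) ^ 2 / u ^ 2) / Real.log X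

/-- the nontrivial zeros of the Riemann zeta function -/
def NT : Set ℂ := {s : ℂ | riemannZeta s = 0 ∧ 0 < s.re ∧ s.re < 1}

/-- the nontrivial zeros with ordinate in `(0, T]` -/
def zerosUpTo (T : ℝ) : Set ℂ := {ρ : ℂ | ρ ∈ NT ∧ 0 < ρ.im ∧ ρ.im ≤ T}

/-- `J_{-1}(T) = ∑_{0 < γ ≤ T} 1/|ζ'(ρ)|²` -/
noncomputable def J (T : ℝ) : ℝ := ∑' ρ : zerosUpTo T, 1 / ‖deriv riemannZeta ρ‖ ^ 2

theorem result :
    (∀ δ : ℝ, 0 < δ → [
      WeakMertens,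
      ∃ C : ℝ, ∀ᶠ X : ℝ in atTop, D δ X ≤ C,
      ∃ C : ℝ, ∃ᶠ X : ℝ in atTop, D δ X ≤ C].TFAE) ∧
    (∀ T : ℝ, (zerosUpTo T).Finite) ∧
    (∀ η : ℝ, 0 < η → η < 2 → [
      ∃ C : ℝ, ∀ δ : ℝ, 0 < δ → δ ≤ 1 → ∀ᶠ X : ℝ in atTop, D δ X ≤ C * δ ^ η,
      ∃ C : ℝ, ∀ δ : ℝ, 0 < δ → δ ≤ 1 → ∃ᶠ X : ℝ in atTop, D δ X ≤ C * δ ^ η,
      (∀ ρ ∈ NT, ρ.re = 1 / 2 ∧ deriv riemannZeta ρ ≠ 0) ∧
        ∃ C : ℝ, ∀ᶠ T : ℝ in atTop, J T ≤ C * T ^ (2 - η)].TFAE) := by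
  have hJ : ∀ T, J T = X113.GG.Jm T := fun T => (X113.GG.Jm_form T).symm
  refine ⟨fun δ hδ => ?_, fun T => X113.GG.J_fin T, fun η hη hη2 => ?_⟩
  · have h := X113.GG.wm_tfae hδ
    have hW : WeakMertens ↔ W120.WM.ZC := TH223.AP.WM_iff_ZC
    rw [← hW] at h
    exact h
  · have h := X113.GG.pow_tfae hη hη2
    simp only [hJ]
    exact h

end Pool.Agent.Results.MP_323ce2_nt.NegativeMomentCriterion
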