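import Mathlib
import Pool.Agent.X149.RMF.Fin

set_option autoImplicit false

namespace Pool.Agent.Results.MP_323ce2_nt.RandomMultiplicative

open MeasureTheory ProbabilityTheory

/-- The sum over `1 ≤ n ≤ u` of `μ(n) ∏_{p ∣ n} x_p` (the Mertens function if all `x_p` are `1`). -/
noncomputable def M (x : ℕ → ℂ) (u : ℝ) : ℂ :=
  ∑ n ∈ Finset.Icc 1 ⌊u⌋₊, (ArithmeticFunction.moebius n : ℂ) * ∏ p ∈ n.primeFactors, x p

/-- The integral of `|M(u)/u|²` over `1 ≤ u ≤ t`. -/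
noncomputable def I (x : ℕ → ℂ) (t : ℝ) : ℝ := ∫ u in (1 : ℝ)..t, (‖M x u‖ / u) ^ 2

/-- The primes `p ≤ t`. -/
noncomputable def primesUpTo (t : ℝ) : Finset ℕ := (Finset.Icc 1 ⌊t⌋₊).filter Nat.Prime

/-- The weak Mertens hypothesis for almost all twists of the Möbius function. -/
theorem result {Ω : Type*} [MeasurableSpace Ω] (P : Measure Ω) [IsProbabilityMeasure P]
    (X : ℕ → Ω → ℂ) (hm : ∀ p : ℕ, p.Prime → Measurable (X p))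
    (hb : ∀ p : ℕ, p.Prime → ∀ ω, ‖X p ω‖ ≤ 1)
    (h0 : ∀ p : ℕ, p.Prime → ∫ ω, X p ω ∂P = 0)
    (hi : iIndepFun (fun p : Nat.Primes => X p) P) :
    (∀ᵐ ω ∂P, ∃ C : ℝ, ∀ t : ℝ, 2 ≤ t → I (fun p => X p ω) t ≤ C * Real.log t) ∧
    ∀ L : ℝ, 0 < L →
      P {ω | ∃ t : ℝ, 1 ≤ t ∧ L * ∏ p ∈ primesUpTo t, (1 + (∫ ω, ‖X p ω‖ ^ 2 ∂P) / p) <
        I (fun p => X p ω) t} ≤ ENNReal.ofReal (1 / L) := by
  refine ⟨?_, fun L hL => X149.RMF.main_max hm hb h0 hi hL⟩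
  filter_upwards [X149.RMF.main_ae hm hb h0 hi] with ω hω
  obtain ⟨C, -, hC⟩ := hω
  exact ⟨C, hC⟩

end Pool.Agent.Results.MP_323ce2_nt.RandomMultiplicative
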