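import Pool.Agent.X262.SM.Fin

/-!
# The mean square of the Mertens function along the sequences `⌊α n ^ c⌋`

Let `M(u) = ∑_{n ≤ u} μ(n)`, `I(x) = ∫_1^x (M(u)/u)² du`, `c > 1` any real number, and `m_n = ⌊α n ^ c⌋`. The number
of the `n` with `m_n ≤ x` is about `(x/α)^(1/c)`; for `c > 2` the gaps of the sequence are much larger than `√x`, the
expected size of `M`. The sum over the sequence which corresponds to `I` is
`S(N) = ∑_{n ≤ N} M(m_n)² / m_n^(1 + 1/c)` (for almost every `α` the sequence has the density `(1/c) (m/α)^(1/c) / m`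
at `m`).

There is `η = η(c) > 0` such that for all `α > 0` outside a set of Hausdorff dimension less than `1`:

* if `ζ` has no zeros with real part `> 1/2 + η`, then `c α^(1/c) S(N) = I(α N ^ c) + O(1)`;
* the weak Mertens hypothesis `I(x) ≪ log x` holds if and only if `ζ` has no zeros with real part `> 1/2 + η` and
  `S(N) ≪ log N`;
* under the weak Mertens hypothesis `α^(1/c) S(N) / log N → ∑_ρ 1 / |ρ ζ'(ρ)|²`; if `ζ` has no zeros with real part
  `> 1/2 + η` and the weak Mertens hypothesis fails, then `α^(1/c) S(N) / log N → ∞`.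

Proof: the transfer theorem `X20.Tr` for sets of integers along `⌊α n ^ c⌋` (helper20) is applied to the binary
digits of `min(1, M(m)² / m^(1+δ))`; a summation by parts with the weights `m^(δ-1/c)` loses nothing if `δ` is small
compared with the exponent saved in the transfer theorem; the cut-off at `1` is not active if `ζ` has no zeros with
real part `> 1/2 + η`. The criterion in terms of the zeros is the starting result `ZeroSumCriterion`.
-/

set_option autoImplicit false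

open Filter Topology

namespace Pool.Agent.Results.MP_323ce2_nt.SparseMeanSquare

/-- the Mertens function -/
noncomputable def M (u : ℝ) : ℝ := ∑ n ∈ Finset.Icc 1 ⌊u⌋₊, ((ArithmeticFunction.moebius n : ℤ) : ℝ)

/-- `I(x) = ∫_1^x (M(u)/u)² du` -/
noncomputable def I (x : ℝ) : ℝ := ∫ u in (1:ℝ)..x, (M u / u) ^ 2

/-- the weak Mertens hypothesis -/
def WeakMertens : Prop := ∃ C : ℝ, ∀ x : ℝ, 2 ≤ x → I x ≤ C * Real.log x

/-- `ζ` has no zeros with real part `> 1/2 + η` -/
def Free (η : ℝ) : Prop := ∀ s : ℂ, 1 / 2 + η < s.re → riemannZeta s ≠ 0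

/-- the nontrivial zeros of the Riemann zeta function -/
def NT : Set ℂ := {s : ℂ | riemannZeta s = 0 ∧ 0 < s.re ∧ s.re < 1}

/-- `m_n = ⌊α n ^ c⌋` -/
noncomputable def m (α c : ℝ) (n : ℕ) : ℕ := ⌊α * (n : ℝ) ^ c⌋₊

/-- `S(N) = ∑_{n ≤ N} M(m_n)² / m_n^(1 + 1/c)` (terms with `m_n = 0` are `0`, since `M(0) = 0`) -/
noncomputable def S (α c : ℝ) (N : ℕ) : ℝ :=
  ∑ n ∈ Finset.Icc 1 N, M (m α c n) ^ 2 / (m α c n : ℝ) ^ (1 + 1 / c)

lemma S_eq (α c : ℝ) (N : ℕ) : S α c N = Pool.Agent.X262.SM.SS α c N := by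
  unfold S Pool.Agent.X262.SM.SS
  apply Finset.sum_congr rfl
  intro n _
  have e : M (m α c n) = Pool.Agent.X262.SM.Mn (m α c n) := by
    unfold M Pool.Agent.X262.SM.Mn
    rw [Nat.floor_natCast]
  rw [e]
  rfl

/-- **Theorem.** For every `c > 1` there are `η > 0` and a set `E` of Hausdorff dimension `< 1` such that for all
`α > 0` outside `E` the four statements hold. -/
theorem result (c : ℝ) (hc : 1 < c) : ∃ η κ : ℝ, 0 < η ∧ 0 < κ ∧ ∃ E : Set ℝ,
    dimH E ≤ ENNReal.ofReal (1 - κ) ∧ ∀ α : ℝ, 0 < α → α ∉ E →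
      -- (1) comparison with the full mean square
      (Free η → ∃ C : ℝ, ∀ N : ℕ, 1 ≤ α * (N : ℝ) ^ c →
        |c * α ^ (1 / c) * S α c N - I (α * (N : ℝ) ^ c)| ≤ C) ∧
      -- (2) a criterion for the weak Mertens hypothesis
      (WeakMertens ↔ Free η ∧ ∃ C : ℝ, ∀ N : ℕ, 2 ≤ N → S α c N ≤ C * Real.log N) ∧
      -- (3) the limits
      (WeakMertens → Tendsto (fun N : ℕ => α ^ (1 / c) * S α c N / Real.log N) atTop
        (𝓝 (∑' ρ : NT, 1 / ‖(ρ : ℂ) * deriv riemannZeta ρ‖ ^ 2))) ∧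
      (Free η → ¬ WeakMertens → Tendsto (fun N : ℕ => α ^ (1 / c) * S α c N / Real.log N) atTop atTop) := by
  obtain ⟨η, κ, hη, hκ, E, hE, h⟩ := Pool.Agent.X262.SM.fin c hc
  have hW : WeakMertens ↔ Pool.Agent.Results.MP_323ce2_nt.ZeroSumCriterion.ZerosCondition :=
    Pool.Agent.Results.MP_323ce2_nt.ZeroSumCriterion.result.1
  refine ⟨η, κ, hη, hκ, E, hE, fun α hα hαE => ?_⟩
  obtain ⟨h1, h2, h3, h4⟩ := h α hα hαE
  have e : Pool.Agent.X262.SM.SS α c = S α c := funext fun N => (S_eq α c N).symm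
  rw [e] at h1 h2 h3 h4
  exact ⟨h1, h2, fun w => h3 (hW.1 w), fun hF w => h4 hF fun z => w (hW.2 z)⟩

end Pool.Agent.Results.MP_323ce2_nt.SparseMeanSquare
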